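import Pool.Agent.Work.MP_2738db_nt_Y.Interface

/-!
# Blocks ABM and ABP of Theorem Y (MP_2738db_nt): Barlow-Abel factors
-/

set_option autoImplicit false

namespace Pool.Agent.Work.MP_2738db_nt_Y.helper23

open Finset Polynomial

theorem nat_pow {x y c k : ℕ} (h : Nat.Coprime x y) (hxy : x * y = c ^ k) :
    ∃ U : ℕ, x = U ^ k := by
  refine exists_eq_pow_of_mul_eq_pow (c := c) ?_ hxy
  rw [Nat.isUnit_iff]
  exact h

theorem nat_pow2 {x y c k : ℕ} (h : Nat.Coprime x y) (hxy : x * y = c ^ k) (hk : 1 ≤ k) :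
    ∃ U v : ℕ, x = U ^ k ∧ y = v ^ k ∧ c = U * v := by
  obtain ⟨U, hU⟩ := nat_pow h hxy
  obtain ⟨v, hv⟩ := nat_pow (x := y) (y := x) h.symm (by rw [mul_comm]; exact hxy)
  refine ⟨U, v, hU, hv, ?_⟩
  rw [hU, hv, ← mul_pow] at hxy
  exact (Nat.pow_left_injective (by omega) hxy).symm

theorem prime_common {r : ℕ} (hr : r.Prime) {a b : ℤ} (hab : IsCoprime a b) {d F : ℕ}
    (hd : (d : ℤ) = a - b) (hF : (F : ℤ) = ∑ i ∈ range r, a ^ i * b ^ (r - 1 - i))
    {p : ℕ} (hp : p.Prime) (h1 : p ∣ d) (h2 : p ∣ F) : p = r := by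
  have hpZ : Prime (p : ℤ) := Nat.prime_iff_prime_int.mp hp
  have h1' : (p : ℤ) ∣ a - b := by rw [← hd]; exact_mod_cast h1
  have h2' : (p : ℤ) ∣ ∑ i ∈ range r, a ^ i * b ^ (r - 1 - i) := by
    rw [← hF]; exact_mod_cast h2
  rw [dvd_geom_sum₂_iff_of_dvd_sub h1'] at h2'
  rcases hpZ.dvd_or_dvd h2' with h | h
  · have h' : p ∣ r := by exact_mod_cast h
    exact (Nat.prime_dvd_prime_iff_eq hp hr).mp h'
  · exfalso
    have hb : (p : ℤ) ∣ b := hpZ.dvd_of_dvd_pow h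
    have ha : (p : ℤ) ∣ a := by
      have := dvd_add h1' hb
      simpa using this
    exact hpZ.not_unit (hab.isUnit_of_dvd' ha hb)

theorem key (r : ℕ) (hr : r.Prime) (h3 : 3 ≤ r) (a b : ℤ) (hab : IsCoprime a b) (d F w t : ℕ)
    (hd : (d : ℤ) = a - b) (hF : (F : ℤ) = ∑ i ∈ range r, a ^ i * b ^ (r - 1 - i))
    (ht : 1 ≤ t) (hw : d * F = w ^ t) :
    (¬ r ∣ w ∧ ∃ U v : ℕ, d = U ^ t ∧ F = v ^ t ∧ w = U * v) ∨
      (∃ U v : ℕ, r ∣ U ∧ r * d = U ^ t ∧ F = r * v ^ t) := by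
  have hrZ : Prime (r : ℤ) := Nat.prime_iff_prime_int.mp hr
  by_cases hrw : r ∣ w
  · right
    -- r divides d
    have hrd : r ∣ d := by
      have h1 : (r : ℤ) ∣ a ^ r - b ^ r := by
        have h2 : (a ^ r - b ^ r : ℤ) = ((w ^ t : ℕ) : ℤ) := by
          rw [← hw]; push_cast; rw [hd, hF, mul_comm]
          exact (Commute.all a b).geom_sum₂_mul r |>.symm
        rw [h2]
        exact_mod_cast dvd_pow hrw (by omega)
      haveI := Fact.mk hr
      have h4 : ((a - b : ℤ) : ZMod r) = 0 := by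
        have h5 : ((a ^ r - b ^ r : ℤ) : ZMod r) = 0 := (ZMod.intCast_zmod_eq_zero_iff_dvd _ _).mpr h1
        push_cast at h5 ⊢
        rwa [ZMod.pow_card, ZMod.pow_card] at h5
      have h6 : (r : ℤ) ∣ a - b := (ZMod.intCast_zmod_eq_zero_iff_dvd _ _).mp h4
      rw [← hd] at h6
      exact_mod_cast h6
    have hrd' : (r : ℤ) ∣ a - b := by rw [← hd]; exact_mod_cast hrd
    have hrb : ¬ (r : ℤ) ∣ b := by
      intro hb
      have ha : (r : ℤ) ∣ a := by
        have := dvd_add hrd' hb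
        simpa using this
      exact hrZ.not_unit (hab.isUnit_of_dvd' ha hb)
    have hrF : r ∣ F := by
      have : (r : ℤ) ∣ ∑ i ∈ range r, a ^ i * b ^ (r - 1 - i) := by
        rw [dvd_geom_sum₂_iff_of_dvd_sub hrd']
        exact dvd_mul_right _ _
      rw [← hF] at this
      exact_mod_cast this
    obtain ⟨G, hG⟩ := hrF
    have hr0 : 0 < r := hr.pos
    have hrG : ¬ r ∣ G := by
      rintro ⟨G', hG'⟩
      obtain ⟨e, he⟩ := hrd'
      have hodd : Odd r := hr.odd_of_ne_two (by omega)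
      have h1 := odd_sq_dvd_geom_sum₂_sub (a := b) (b := e) hodd
      have h2 : b + (r : ℤ) * e = a := by rw [← he]; ring
      rw [h2, ← hF, hG, hG'] at h1
      have h3' : (r : ℤ) ^ 2 ∣ (r : ℤ) * b ^ (r - 1) := by
        have h4 : (r : ℤ) ^ 2 ∣ ((r * (r * G') : ℕ) : ℤ) := ⟨G', by push_cast; ring⟩
        have h5 := dvd_sub h4 h1
        simpa using h5
      rw [sq] at h3'
      have h6 : (r : ℤ) ∣ b ^ (r - 1) :=
        (mul_dvd_mul_iff_left (by exact_mod_cast hr0.ne')).mp h3'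
      exact hrb (hrZ.dvd_of_dvd_pow h6)
    have hcop : Nat.Coprime (r * d) G := by
      rw [Nat.coprime_iff_gcd_eq_one]
      by_contra hne
      obtain ⟨p, hp, hpd⟩ := Nat.exists_prime_and_dvd hne
      have h1 : p ∣ r * d := hpd.trans (Nat.gcd_dvd_left _ _)
      have h2 : p ∣ G := hpd.trans (Nat.gcd_dvd_right _ _)
      have hpr : p ≠ r := by rintro rfl; exact hrG h2
      have h3' : p ∣ d := by
        rcases (Nat.Prime.dvd_mul hp).mp h1 with h | h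
        · exact absurd ((Nat.prime_dvd_prime_iff_eq hp hr).mp h) hpr
        · exact h
      exact hpr (prime_common hr hab hd hF hp h3' (hG ▸ h2.mul_left r))
    have hprod : (r * d) * G = w ^ t := by rw [← hw, hG]; ring
    obtain ⟨U, v, hU, hv, -⟩ := nat_pow2 hcop hprod ht
    refine ⟨U, v, ?_, hU, by rw [hG, hv]⟩
    exact hr.dvd_of_dvd_pow (hU ▸ dvd_mul_right r d)
  · left
    refine ⟨hrw, ?_⟩
    have hcop : Nat.Coprime d F := by
      rw [Nat.coprime_iff_gcd_eq_one]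
      by_contra hne
      obtain ⟨p, hp, hpd⟩ := Nat.exists_prime_and_dvd hne
      have h1 : p ∣ d := hpd.trans (Nat.gcd_dvd_left _ _)
      have h2 : p ∣ F := hpd.trans (Nat.gcd_dvd_right _ _)
      have h4 := prime_common hr hab hd hF hp h1 h2
      subst h4
      exact hrw (hp.dvd_of_dvd_pow (hw ▸ h1.mul_right F))
    obtain ⟨U, v, hU, hv, huv⟩ := nat_pow2 hcop hw ht
    exact ⟨U, v, hU, hv, huv⟩

theorem stmt_ABM : Stmt_Abm := by
  intro r A B w t hr h3 hAB hB hlt ht h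
  have hd : ((A - B : ℕ) : ℤ) = (A : ℤ) - B := by push_cast [hlt.le]; ring
  have hF : ((∑ i ∈ range r, A ^ i * B ^ (r - 1 - i) : ℕ) : ℤ)
      = ∑ i ∈ range r, (A : ℤ) ^ i * (B : ℤ) ^ (r - 1 - i) := by push_cast; rfl
  have hw : (A - B) * (∑ i ∈ range r, A ^ i * B ^ (r - 1 - i)) = w ^ t := by
    have h1 : (((A - B) * (∑ i ∈ range r, A ^ i * B ^ (r - 1 - i)) : ℕ) : ℤ) = ((w ^ t : ℕ) : ℤ) := by
      rw [Nat.cast_mul, hd, hF, mul_comm, (Commute.all (A : ℤ) B).geom_sum₂_mul r]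
      have h2 : (B : ℤ) ^ r + (w : ℤ) ^ t = (A : ℤ) ^ r := by exact_mod_cast h
      push_cast
      linarith
    exact_mod_cast h1
  rcases key r hr h3 A B (Nat.isCoprime_iff_coprime.mpr hAB) (A - B) _ w t hd hF ht hw with
    ⟨h1, U, v, hU, hv, huv⟩ | ⟨U, v, h1, hU, hv⟩
  · left
    exact ⟨U, v, h1, by omega, huv, hv⟩
  · right
    refine ⟨U, v, h1, ?_, hv⟩
    have h4 : A = B + (A - B) := by omega
    calc r * A = r * (B + (A - B)) := by rw [← h4]
      _ = r * B + r * (A - B) := by ring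
      _ = r * B + U ^ t := by rw [hU]

theorem stmt_ABP : Stmt_Abp := by
  intro r A B w t hr h3 hAB hB hA ht h
  have hodd : Odd r := hr.odd_of_ne_two (by omega)
  have hd : ((A + B : ℕ) : ℤ) = (A : ℤ) - (-(B : ℤ)) := by push_cast; ring
  have h0 : (∑ i ∈ range r, (A : ℤ) ^ i * (-(B : ℤ)) ^ (r - 1 - i)) * ((A : ℤ) - (-(B : ℤ)))
      = (w : ℤ) ^ t := by
    rw [(Commute.all (A : ℤ) (-(B : ℤ))).geom_sum₂_mul r, hodd.neg_pow]
    have h2 : (A : ℤ) ^ r + (B : ℤ) ^ r = (w : ℤ) ^ t := by exact_mod_cast h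
    linarith
  have hpos : 0 ≤ ∑ i ∈ range r, (A : ℤ) ^ i * (-(B : ℤ)) ^ (r - 1 - i) := by
    by_contra hneg
    push Not at hneg
    have h1 : (0 : ℤ) ≤ (w : ℤ) ^ t := by positivity
    have h2 : (0 : ℤ) < (A : ℤ) - (-(B : ℤ)) := by
      have : (1 : ℤ) ≤ A := by exact_mod_cast hA
      have : (1 : ℤ) ≤ B := by exact_mod_cast hB
      linarith
    nlinarith
  obtain ⟨F, hF⟩ := Int.eq_ofNat_of_zero_le hpos
  have hw : (A + B) * F = w ^ t := by
    have h1 : (((A + B) * F : ℕ) : ℤ) = ((w ^ t : ℕ) : ℤ) := by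
      rw [Nat.cast_mul, hd, ← hF, mul_comm, h0]
      push_cast
      rfl
    exact_mod_cast h1
  have hcop : IsCoprime (A : ℤ) (-(B : ℤ)) := (Nat.isCoprime_iff_coprime.mpr hAB).neg_right
  rcases key r hr h3 A (-(B : ℤ)) hcop (A + B) F w t hd hF.symm ht hw with
    ⟨-, U, v, hU, -⟩ | ⟨U, v, h1, hU, -⟩
  · exact Or.inl ⟨U, hU⟩
  · exact Or.inr ⟨U, h1, hU⟩

end Pool.Agent.Work.MP_2738db_nt_Y.helper23
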