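import Pool.Agent.Work.MP_2738db_nt_Y.Interface

/-!
# Block CASB of Theorem Y (MP_2738db_nt)
-/

set_option autoImplicit false

namespace Pool.Agent.Work.MP_2738db_nt_Y.helper23

open Finset Polynomial

theorem phi_lt {q Y Z : ℕ} (hq : 2 ≤ q) (hZY : Z < Y) :
    q * Z ^ (q - 1) < ∑ i ∈ range q, Y ^ i * Z ^ (q - 1 - i) ∧
      ∑ i ∈ range q, Y ^ i * Z ^ (q - 1 - i) < q * Y ^ (q - 1) := by
  have hpow : ∀ i, i ∈ range q → Y ^ i * Y ^ (q - 1 - i) = Y ^ (q - 1) := by
    intro i hi
    rw [mem_range] at hi
    rw [← pow_add]; congr 1; omega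
  have hpow' : ∀ i, i ∈ range q → Z ^ i * Z ^ (q - 1 - i) = Z ^ (q - 1) := by
    intro i hi
    rw [mem_range] at hi
    rw [← pow_add]; congr 1; omega
  have hlt : Z ^ (q - 1) < Y ^ (q - 1) := Nat.pow_lt_pow_left hZY (by omega)
  constructor
  · have h1 : q * Z ^ (q - 1) = ∑ i ∈ range q, Z ^ (q - 1) := by simp
    rw [h1]
    refine Finset.sum_lt_sum (fun i hi => ?_) ⟨q - 1, mem_range.mpr (by omega), ?_⟩
    · rw [← hpow' i hi]
      exact Nat.mul_le_mul_right _ (Nat.pow_le_pow_left hZY.le i)
    · have h2 : q - 1 - (q - 1) = 0 := by omega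
      rw [h2, pow_zero, mul_one]
      exact hlt
  · have h1 : q * Y ^ (q - 1) = ∑ i ∈ range q, Y ^ (q - 1) := by simp
    rw [h1]
    refine Finset.sum_lt_sum (fun i hi => ?_) ⟨0, mem_range.mpr (by omega), ?_⟩
    · rw [← hpow i hi]
      exact Nat.mul_le_mul_left _ (Nat.pow_le_pow_left hZY.le _)
    · simpa using hlt

/-- distinct positive integers have distant logarithms -/
theorem log_sub_abs {a b : ℕ} (ha : 1 ≤ a) (hb : 1 ≤ b) (hab : a ≠ b) {L : ℝ}
    (h1 : Real.log a ≤ L) (h2 : Real.log b ≤ L) :
    Real.exp (-L) ≤ |Real.log a - Real.log b| := by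
  have main : ∀ a b : ℕ, 1 ≤ a → 1 ≤ b → b < a → Real.log a ≤ L →
      Real.exp (-L) ≤ Real.log a - Real.log b := by
    intro a b ha hb hlt h
    have ha' : (0 : ℝ) < a := by exact_mod_cast ha
    have hb' : (0 : ℝ) < b := by exact_mod_cast hb
    have h3 : (b : ℝ) + 1 ≤ a := by exact_mod_cast hlt
    have h4 := Real.one_sub_inv_le_log_of_pos (div_pos ha' hb')
    rw [Real.log_div ha'.ne' hb'.ne', inv_div] at h4
    have h5 : Real.exp (-L) ≤ 1 / a := by
      rw [Real.exp_neg, one_div]
      refine inv_anti₀ ha' ?_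
      calc (a : ℝ) = Real.exp (Real.log a) := (Real.exp_log ha').symm
        _ ≤ Real.exp L := Real.exp_le_exp.mpr h
    have h6 : 1 / (a : ℝ) ≤ 1 - b / a := by
      rw [div_le_iff₀ ha', sub_mul, div_mul_cancel₀ _ ha'.ne']
      linarith
    linarith
  rcases lt_or_gt_of_ne hab with h | h
  · rw [abs_sub_comm]
    exact (main b a hb ha h h2).trans (le_abs_self _)
  · exact (main a b ha hb h h1).trans (le_abs_self _)

theorem casb (hABM : Stmt_Abm) (hARQ : Stmt_Arq) : Stmt_Casb := by
  obtain ⟨C, hC1, hC⟩ := hARQ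
  refine ⟨8 * C + 2, by linarith, ?_⟩
  intro p q x Y Z w hp hq hpq hq3 hx hZ hZY hcop hw heq
  have hp2 : 2 ≤ p := hp.two_le
  -- real quantities
  have hYpos : (0 : ℝ) < Y := by exact_mod_cast (by omega : 0 < Y)
  have hZpos : (0 : ℝ) < Z := by exact_mod_cast (by omega : 0 < Z)
  have hxpos : (0 : ℝ) < x := by exact_mod_cast (by omega : 0 < x)
  have hY2 : (2 : ℕ) ≤ Y := by omega
  set LY := Real.log Y with hLY
  set LZ := Real.log Z with hLZ
  set Lx := Real.log x with hLx
  set LM := (q : ℝ) * LY with hLM
  have hLY0 : 0 < LY := Real.log_pos (by exact_mod_cast (by omega : 1 < Y))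
  have hq0 : (0 : ℝ) < q := by exact_mod_cast hq.pos
  have hp0 : (0 : ℝ) < p := by exact_mod_cast hp.pos
  have hLM0 : 0 < LM := mul_pos hq0 hLY0
  -- integrality
  have hint : Y ^ (q - 1) ≤ x ^ p := by
    have h1 : Y ^ q = Y * Y ^ (q - 1) := by
      rw [← pow_succ']; congr 1; omega
    have h2 : Z ^ q = Z * Z ^ (q - 1) := by
      rw [← pow_succ']; congr 1; omega
    have h3 : Z * Z ^ (q - 1) ≤ Z * Y ^ (q - 1) :=
      Nat.mul_le_mul_left _ (Nat.pow_le_pow_left hZY.le _)
    have h4 : (Z + 1) * Y ^ (q - 1) ≤ Y * Y ^ (q - 1) := Nat.mul_le_mul_right _ hZY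
    have h5 : (Z + 1) * Y ^ (q - 1) = Z * Y ^ (q - 1) + Y ^ (q - 1) := by ring
    omega
  have hD1 : ((q : ℝ) - 1) * LY ≤ p * Lx := by
    have h1 : ((Y : ℝ)) ^ (q - 1) ≤ (x : ℝ) ^ p := by exact_mod_cast hint
    have h2 := Real.log_le_log (by positivity) h1
    rw [Real.log_pow, Real.log_pow] at h2
    have h3 : ((q - 1 : ℕ) : ℝ) = (q : ℝ) - 1 := by
      rw [Nat.cast_sub (by omega)]; simp
    rw [h3] at h2
    exact h2
  have hD2 : LM - p * Lx ≤ LY := by rw [hLM]; linarith
  have hx2 : 2 ≤ x := by
    by_contra hcon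
    have hx1 : x = 1 := by omega
    rw [hx1, one_pow] at hint
    have : 2 ^ (q - 1) ≤ Y ^ (q - 1) := Nat.pow_le_pow_left hY2 _
    have h4 : 2 ^ 1 ≤ 2 ^ (q - 1) := Nat.pow_le_pow_right (by norm_num) (by omega)
    omega
  have hlt : x ^ p < Y ^ q := by
    have : 0 < Z ^ q := by positivity
    omega
  have hpLx : (p : ℝ) * Lx ≤ LM := by
    have h1 : (x : ℝ) ^ p ≤ (Y : ℝ) ^ q := by exact_mod_cast hlt.le
    have h2 := Real.log_le_log (by positivity) h1
    rwa [Real.log_pow, Real.log_pow] at h2
  have hlog2 : Real.log 2 ≤ Lx := Real.log_le_log (by norm_num) (by exact_mod_cast hx2)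
  have hl2 := Real.log_two_gt_d9
  have hl2' := Real.log_two_lt_d9
  have hLMp : (p : ℝ) * Real.log 2 ≤ LM := (mul_le_mul_of_nonneg_left hlog2 hp0.le).trans hpLx
  -- the case q > p
  rcases lt_or_gt_of_ne hpq with hlt' | hgt
  · have hmax : max p q = q := max_eq_right hlt'.le
    rw [hmax]
    have hlogq : 1 ≤ Real.log q := by
      have h1 : Real.exp 1 ≤ (q : ℝ) := by
        have := Real.exp_one_lt_d9
        have h3 : (3 : ℝ) ≤ q := by exact_mod_cast hq3
        linarith
      have := Real.log_le_log (Real.exp_pos 1) h1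
      rwa [Real.log_exp] at this
    have h1 : (1 : ℝ) ≤ Real.log q ^ 3 := one_le_pow₀ hlogq
    have h2 : LY = 1 / q * LM := by rw [hLM]; field_simp
    calc LM - p * Lx ≤ LY := hD2
      _ = 1 / q * LM := h2
      _ ≤ (8 * C + 2) * (Real.log q ^ 3 / q) * LM := by
          refine mul_le_mul_of_nonneg_right ?_ hLM0.le
          rw [mul_div_assoc']
          refine div_le_div_of_nonneg_right ?_ hq0.le
          exact one_le_mul_of_one_le_of_one_le (by linarith) h1
  · have hmax : max p q = p := max_eq_left hgt.le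
    rw [hmax]
    have hp4 : 4 ≤ p := by omega
    have hlogp : 1 ≤ Real.log p := by
      have h1 : Real.exp 1 ≤ (p : ℝ) := by
        have := Real.exp_one_lt_d9
        have h3 : (4 : ℝ) ≤ p := by exact_mod_cast hp4
        linarith
      have := Real.log_le_log (Real.exp_pos 1) h1
      rwa [Real.log_exp] at this
    have hlogq : 1 ≤ Real.log q := by
      have h1 : Real.exp 1 ≤ (q : ℝ) := by
        have := Real.exp_one_lt_d9
        have h3 : (3 : ℝ) ≤ q := by exact_mod_cast hq3
        linarith
      have := Real.log_le_log (Real.exp_pos 1) h1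
      rwa [Real.log_exp] at this
    have hlogqp : Real.log q ≤ Real.log p := Real.log_le_log hq0 (by exact_mod_cast hgt.le)
    set lp := Real.log p with hlp
    have hlp3 : (1 : ℝ) ≤ lp ^ 3 := one_le_pow₀ hlogp
    set D := LM - p * Lx with hD
    have hLMp' : 0 < LM / p := div_pos hLM0 hp0
    -- it suffices to bound D by a multiple of LM / p
    have hsuff : ∀ D' : ℝ, D ≤ D' → D' ≤ (8 * C + 2) * lp ^ 3 * (LM / p) →
        D ≤ (8 * C + 2) * (lp ^ 3 / p) * LM := by
      intro D' h1 h2
      refine h1.trans (h2.trans (le_of_eq ?_))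
      field_simp
    have hlog2p : Real.log 2 ≤ LM / p := by
      rw [le_div_iff₀ hp0]; linarith
    by_cases he : 1 / 2 < Real.exp (-D)
    · -- small gap
      have h1 : D ≤ Real.log 2 := by
        have h2 := Real.log_lt_log (by norm_num) he
        rw [Real.log_exp, one_div, Real.log_inv] at h2
        linarith
      refine hsuff _ h1 (hlog2p.trans ?_)
      exact le_mul_of_one_le_left hLMp'.le (one_le_mul_of_one_le_of_one_le (by linarith) hlp3)
    · push Not at he
      set e := Real.exp (-D) with hedef
      have he0 : 0 < e := Real.exp_pos _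
      -- q (LY - LZ) ≤ 2 e
      have hYZ : (q : ℝ) * (LY - LZ) ≤ 2 * e := by
        have h1 : e = (x : ℝ) ^ p / (Y : ℝ) ^ q := by
          rw [hedef, hD, neg_sub, Real.exp_sub, hLM, hLx, hLY, Real.exp_nat_mul,
            Real.exp_nat_mul, Real.exp_log hxpos, Real.exp_log hYpos]
        have h2 : (Z : ℝ) ^ q / (Y : ℝ) ^ q = 1 - e := by
          have h3 : (Z : ℝ) ^ q + (x : ℝ) ^ p = (Y : ℝ) ^ q := by exact_mod_cast heq
          have h4 : (Y : ℝ) ^ q ≠ 0 := by positivity
          rw [h1]
          field_simp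
          linarith
        have h5 : (q : ℝ) * (LZ - LY) = Real.log (1 - e) := by
          rw [← h2, Real.log_div (by positivity) (by positivity), Real.log_pow, Real.log_pow]
          ring
        have h6 : 0 < 1 - e := by linarith
        have h7 := Real.one_sub_inv_le_log_of_pos h6
        have h8 : (1 - e)⁻¹ ≤ 1 + 2 * e := by
          rw [inv_le_iff_one_le_mul₀ h6]
          have h10 := mul_nonneg he0.le (by linarith : (0 : ℝ) ≤ 1 - 2 * e)
          linarith
        have h9 : (q : ℝ) * (LY - LZ) = -Real.log (1 - e) := by rw [← h5]; ring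
        rw [h9]
        linarith
      have hLZY : LZ ≤ LY := Real.log_le_log hZpos (by exact_mod_cast hZY.le)
      -- Φ
      obtain ⟨hPhi1, hPhi2⟩ := phi_lt (q := q) (by omega) hZY
      obtain ⟨Phi, hPhi⟩ : ∃ Phi : ℕ, Phi = ∑ i ∈ range q, Y ^ i * Z ^ (q - 1 - i) := ⟨_, rfl⟩
      rw [← hPhi] at hPhi1 hPhi2
      have hq1 : ((q - 1 : ℕ) : ℝ) = (q : ℝ) - 1 := by
        rw [Nat.cast_sub (by omega)]; simp
      have hPhipos : 0 < Phi := lt_of_le_of_lt (Nat.zero_le _) hPhi1
      have hPhi0 : (0 : ℝ) < Phi := by exact_mod_cast hPhipos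
      have hlo : Real.log q + ((q : ℝ) - 1) * LZ ≤ Real.log Phi := by
        have h1 : (q : ℝ) * (Z : ℝ) ^ (q - 1) ≤ Phi := by exact_mod_cast hPhi1.le
        have h2 := Real.log_le_log (by positivity) h1
        rw [Real.log_mul hq0.ne' (by positivity), Real.log_pow, hq1] at h2
        exact h2
      have hhi : Real.log Phi ≤ Real.log q + ((q : ℝ) - 1) * LY := by
        have h1 : (Phi : ℝ) ≤ (q : ℝ) * (Y : ℝ) ^ (q - 1) := by exact_mod_cast hPhi2.le
        have h2 := Real.log_le_log hPhi0 h1
        rw [Real.log_mul hq0.ne' (by positivity), Real.log_pow, hq1] at h2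
        exact h2
      have hw1 : 1 ≤ w := by
        by_contra hcon
        have hw0 : w = 0 := by omega
        rw [hw0, zero_pow (by omega)] at hw
        omega
      have hwpos : (0 : ℝ) < w := by exact_mod_cast hw1
      -- W = w ^ p
      have hWlog : (p : ℝ) * Real.log w = LY ∨ (p : ℝ) * Real.log w = LZ := by
        rcases hw with h | h
        · left; rw [hLY, h]; push_cast; rw [Real.log_pow]
        · right; rw [hLZ, h]; push_cast; rw [Real.log_pow]
      have hWle : (p : ℝ) * Real.log w ≤ LY := by
        rcases hWlog with h | h <;> rw [h]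
        exact hLZY
      have hqq : (1 : ℝ) ≤ (q : ℝ) - 1 := by
        have : (3 : ℝ) ≤ q := by exact_mod_cast hq3
        linarith
      have hclose : |Real.log Phi - Real.log q - ((q : ℝ) - 1) * ((p : ℝ) * Real.log w)| ≤ 2 * e := by
        have h0 : ((q : ℝ) - 1) * (LY - LZ) ≤ 2 * e :=
          (mul_le_mul_of_nonneg_right (by linarith) (sub_nonneg.mpr hLZY)).trans hYZ
        rw [abs_le]
        rcases hWlog with h | h <;> rw [h] <;> constructor <;> linarith
      have hlogw0 : 0 ≤ Real.log w := Real.log_nonneg (by exact_mod_cast hw1)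
      -- the power
      have hwq : Real.log ((w ^ (q - 1) : ℕ) : ℝ) = ((q : ℝ) - 1) * Real.log w := by
        push_cast; rw [Real.log_pow, hq1]
      have hwqle : Real.log ((w ^ (q - 1) : ℕ) : ℝ) ≤ LM / p := by
        rw [hwq, le_div_iff₀ hp0]
        have h1 : ((q : ℝ) - 1) * ((p : ℝ) * Real.log w) ≤ ((q : ℝ) - 1) * LY :=
          mul_le_mul_of_nonneg_left hWle (by linarith)
        have h2 : ((q : ℝ) - 1) * LY ≤ LM := by rw [hLM]; linarith
        linarith
      have hLxle : Lx ≤ LM / p := by rw [le_div_iff₀ hp0]; linarith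
      rcases hABM q Y Z x p hq hq3 hcop hZ hZY (by omega) heq with
        ⟨U, v, -, hYU, hxUv, hPv⟩ | ⟨U, v, hqU, hYU, hPv⟩ <;> rw [← hPhi] at hPv
      · -- Φ = v ^ p
        have hU1 : 1 ≤ U := by
          by_contra hcon
          have : U = 0 := by omega
          rw [this, zero_pow (by omega)] at hYU
          omega
        have hv1 : 1 ≤ v := by
          by_contra hcon
          have : v = 0 := by omega
          rw [this, mul_zero] at hxUv
          omega
        have hvpos : (0 : ℝ) < v := by exact_mod_cast hv1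
        have hvx : v ≤ x := by rw [hxUv]; exact Nat.le_mul_of_pos_left v hU1
        have hlogv : Real.log v ≤ LM / p :=
          (Real.log_le_log hvpos (by exact_mod_cast hvx)).trans hLxle
        have hlogPhi : Real.log Phi = p * Real.log v := by
          rw [hPv]; push_cast; rw [Real.log_pow]
        by_cases hbig : C * Real.log q * (1 + Real.log p) ≤ p
        · have hA1 : (1 : ℝ) ≤ 2 * (LM / p) := by linarith
          have hA2 : LM / p ≤ 2 * (LM / p) := by linarith
          have hk0 : ((1 : ℕ) : ℝ) ≤ 2 * (LM / p) * p := by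
            have h1 : 2 * (LM / p) * p = 2 * LM := by field_simp
            have h2 : (4 : ℝ) * Real.log 2 ≤ p * Real.log 2 :=
              mul_le_mul_of_nonneg_right (by exact_mod_cast hp4) (by linarith)
            rw [h1]
            push_cast
            linarith
          have hfin := hC v (w ^ (q - 1)) q 1 p (2 * (LM / p)) (Real.log q) hv1
            (Nat.one_le_pow _ _ hw1) (by omega) le_rfl (by omega) (Nat.coprime_one_right p) hA1
            hlogq (hlogv.trans hA2) (hwqle.trans hA2) le_rfl hk0 hbig
          have h1 : |(p : ℝ) * (Real.log v - Real.log ((w ^ (q - 1) : ℕ) : ℝ)) -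
              ((1 : ℕ) : ℝ) * Real.log q| ≤ 2 * e := by
            rw [hwq]
            rw [hlogPhi] at hclose
            refine le_trans (le_of_eq ?_) hclose
            congr 1
            push_cast
            ring
          have h2 := hfin.trans h1
          have h3 := Real.log_le_log (Real.exp_pos _) h2
          rw [Real.log_exp, Real.log_mul (by norm_num) he0.ne', hedef, Real.log_exp] at h3
          -- D ≤ C (2 LM / p) log q (1 + log p)^2 + log 2
          refine hsuff (C * (2 * (LM / p) * Real.log q) * (1 + Real.log p) ^ 2 + Real.log 2)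
            (by linarith) ?_
          have h4 : Real.log q * (1 + Real.log p) ^ 2 ≤ 4 * lp ^ 3 := by
            have h5 : (1 + Real.log p) ^ 2 ≤ (2 * lp) ^ 2 :=
              pow_le_pow_left₀ (by linarith) (by linarith) 2
            calc Real.log q * (1 + Real.log p) ^ 2 ≤ lp * (2 * lp) ^ 2 :=
                  mul_le_mul hlogqp h5 (by positivity) (by linarith)
              _ = 4 * lp ^ 3 := by ring
          have h6 : C * (2 * (LM / p) * Real.log q) * (1 + Real.log p) ^ 2
              = 2 * C * (LM / p) * (Real.log q * (1 + Real.log p) ^ 2) := by ring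
          have h7 : 0 ≤ 2 * C * (LM / p) := by positivity
          have h8 := mul_le_mul_of_nonneg_left h4 h7
          have h9 : (LM / p) ≤ lp ^ 3 * (LM / p) := le_mul_of_one_le_left hLMp'.le hlp3
          rw [h6]
          have h10 : (8 * C + 2) * lp ^ 3 * (LM / p)
              = 2 * C * (LM / p) * (4 * lp ^ 3) + 2 * (lp ^ 3 * (LM / p)) := by ring
          rw [h10]
          linarith
        · push Not at hbig
          -- p is small
          have h1 : D ≤ LM := by
            have : LY ≤ LM := by rw [hLM]; exact le_mul_of_one_le_left hLY0.le (by linarith)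
            linarith
          refine hsuff _ h1 ?_
          have h2 : (p : ℝ) ≤ (8 * C + 2) * lp ^ 3 := by
            have h3 : C * Real.log q * (1 + Real.log p) ≤ C * lp * (2 * lp) := by
              refine mul_le_mul (mul_le_mul_of_nonneg_left hlogqp (by linarith)) (by linarith)
                (by linarith) (by positivity)
            have h4 : lp ^ 2 ≤ lp ^ 3 := pow_le_pow_right₀ hlogp (by norm_num)
            have h5 : 2 * C * lp ^ 2 ≤ 2 * C * lp ^ 3 :=
              mul_le_mul_of_nonneg_left h4 (by linarith)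
            have h6 : 2 * C * lp ^ 3 ≤ (8 * C + 2) * lp ^ 3 :=
              mul_le_mul_of_nonneg_right (by linarith) (by linarith)
            have h7 : C * lp * (2 * lp) = 2 * C * lp ^ 2 := by ring
            linarith
          calc LM = p * (LM / p) := by field_simp
            _ ≤ (8 * C + 2) * lp ^ 3 * (LM / p) := mul_le_mul_of_nonneg_right h2 hLMp'.le
      · -- Φ = q v ^ p
        have hne : v ≠ w ^ (q - 1) := by
          rintro rfl
          have h1 : (w ^ (q - 1)) ^ p = (w ^ p) ^ (q - 1) := by
            rw [← pow_mul, ← pow_mul, mul_comm]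
          rw [h1] at hPv
          rcases hw with h | h
          · rw [h] at hPhi2
            rw [hPv] at hPhi2
            exact lt_irrefl _ hPhi2
          · rw [h] at hPhi1
            rw [hPv] at hPhi1
            exact lt_irrefl _ hPhi1
        have hv1 : 1 ≤ v := by
          by_contra hcon
          have : v = 0 := by omega
          rw [this, zero_pow (by omega), mul_zero] at hPv
          omega
        have hvpos : (0 : ℝ) < v := by exact_mod_cast hv1
        have hlogPhi : Real.log Phi = Real.log q + p * Real.log v := by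
          rw [hPv]; push_cast
          rw [Real.log_mul hq0.ne' (by positivity), Real.log_pow]
        have hlogv : Real.log v ≤ LM / p := by
          rw [le_div_iff₀ hp0]
          have h2 : ((q : ℝ) - 1) * LY ≤ LM := by rw [hLM]; linarith
          rw [hlogPhi] at hhi
          linarith
        have h1 := log_sub_abs hv1 (Nat.one_le_pow _ _ hw1) hne hlogv hwqle
        have h2 : (p : ℝ) * |Real.log v - Real.log ((w ^ (q - 1) : ℕ) : ℝ)| ≤ 2 * e := by
          rw [hlogPhi] at hclose
          refine le_trans (le_of_eq ?_) hclose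
          rw [hwq, ← abs_of_pos hp0, ← abs_mul, abs_of_pos hp0]
          congr 1
          ring
        have h3 : Real.exp (-(LM / p)) ≤ 2 * e := by
          have h4 : (1 : ℝ) ≤ p := by
            have : (4 : ℝ) ≤ p := by exact_mod_cast hp4
            linarith
          have h5 := abs_nonneg (Real.log v - Real.log ((w ^ (q - 1) : ℕ) : ℝ))
          exact (h1.trans (le_mul_of_one_le_left h5 h4)).trans h2
        have h4 := Real.log_le_log (Real.exp_pos _) h3
        rw [Real.log_exp, Real.log_mul (by norm_num) he0.ne', hedef, Real.log_exp] at h4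
        refine hsuff (Real.log 2 + LM / p) (by linarith) ?_
        have h5 : 2 ≤ (8 * C + 2) * lp ^ 3 := by
          have := mul_le_mul (by linarith : (2 : ℝ) ≤ 8 * C + 2) hlp3 (by norm_num) (by linarith)
          linarith
        have h6 := mul_le_mul_of_nonneg_right h5 hLMp'.le
        linarith

end Pool.Agent.Work.MP_2738db_nt_Y.helper23
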